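import Pool.Agent.Y503.HC.Len
import Pool.Agent.Helper381.Riem3

/-! A smooth Riemannian metric on a compact connected manifold turns it into a metric space which is
a Riemannian manifold in the sense of Mathlib; isometries and fixed points. -/

set_option autoImplicit false

namespace Pool.Agent.Q145.TN

open scoped Manifold ContDiff Topology ENNReal
open Bundle Manifold Set Filter

noncomputable section

variable {E : Type} [NormedAddCommGroup E] [NormedSpace ℝ E] [FiniteDimensional ℝ E]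
  {N : Type} [TopologicalSpace N] [ChartedSpace E N] [IsManifold 𝓘(ℝ, E) ∞ N]

/-- the Riemannian bundle structure of a metric -/
@[reducible] def rb (g : Y503.HC.Metric 𝓘(ℝ, E) N) :
    RiemannianBundle (fun x : N => TangentSpace 𝓘(ℝ, E) x) := ⟨g.toRiemannianMetric⟩

lemma crb (g : Y503.HC.Metric 𝓘(ℝ, E) N) :
    letI := rb g
    IsContinuousRiemannianBundle E (fun x : N => TangentSpace 𝓘(ℝ, E) x) :=
  letI := rb g
  ⟨g.inner, g.contMDiff.continuous, fun _ _ _ => rfl⟩

lemma eventually_dist_lt (g : Y503.HC.Metric 𝓘(ℝ, E) N) (x : N) :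
    ∀ᶠ y in 𝓝 x, Y503.HC.dist g x y < 1 := by
  letI := rb g
  haveI := crb g
  exact eventually_riemannianEDist_lt 𝓘(ℝ, E) x one_pos

lemma dist_ne_top [ConnectedSpace N] (g : Y503.HC.Metric 𝓘(ℝ, E) N) (x y : N) :
    Y503.HC.dist g x y ≠ ⊤ := by
  set S : Set N := {y | Y503.HC.dist g x y ≠ ⊤} with hS
  have hcl : IsClopen S := by
    refine ⟨⟨?_⟩, ?_⟩
    · rw [isOpen_iff_mem_nhds]
      intro z hz
      have hz' : Y503.HC.dist g x z = ⊤ := by
        by_contra h
        exact hz h
      filter_upwards [eventually_dist_lt g z] with w hw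
      intro hw'
      have h1 := Y503.HC.dist_triangle g x w z
      rw [hz', Y503.HC.dist_comm g w z] at h1
      have h2 : Y503.HC.dist g x w + Y503.HC.dist g z w < ⊤ :=
        ENNReal.add_lt_top.2 ⟨lt_top_iff_ne_top.2 hw', hw.trans ENNReal.one_lt_top⟩
      exact absurd h1 (not_le.2 h2)
    · rw [isOpen_iff_mem_nhds]
      intro z hz
      filter_upwards [eventually_dist_lt g z] with w hw
      have h1 := Y503.HC.dist_triangle g x z w
      have h2 : Y503.HC.dist g x z + Y503.HC.dist g z w < ⊤ :=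
        ENNReal.add_lt_top.2 ⟨lt_top_iff_ne_top.2 hz, hw.trans ENNReal.one_lt_top⟩
      exact (lt_of_le_of_lt h1 h2).ne
  have hne : S.Nonempty := ⟨x, by
    show Y503.HC.dist g x x ≠ ⊤
    rw [Y503.HC.dist_self]; exact ENNReal.zero_ne_top⟩
  have := hcl.eq_univ hne
  have hy : y ∈ S := by rw [this]; trivial
  exact hy

/-- the extended metric space structure of a Riemannian metric -/
@[reducible] def emS [T3Space N] (g : Y503.HC.Metric 𝓘(ℝ, E) N) : EMetricSpace N :=
  letI := rb g
  haveI := crb g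
  EMetricSpace.ofRiemannianMetric 𝓘(ℝ, E) N

/-- the metric space structure of a Riemannian metric -/
@[reducible] def mS [ConnectedSpace N] [T3Space N] (g : Y503.HC.Metric 𝓘(ℝ, E) N) :
    MetricSpace N :=
  @EMetricSpace.toMetricSpace N (emS g) (dist_ne_top g)

lemma edist_mS [ConnectedSpace N] [T3Space N] (g : Y503.HC.Metric 𝓘(ℝ, E) N) (x y : N) :
    (mS g).toPseudoMetricSpace.toPseudoEMetricSpace.edist x y = Y503.HC.dist g x y := rfl

lemma irm [ConnectedSpace N] [T3Space N] (g : Y503.HC.Metric 𝓘(ℝ, E) N) :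
    letI := mS g
    letI := rb g
    IsRiemannianManifold 𝓘(ℝ, E) N :=
  letI := mS g
  letI := rb g
  ⟨fun _ _ => rfl⟩

lemma smooth_rb (g : Y503.HC.Metric 𝓘(ℝ, E) N) :
    letI := rb g
    IsContMDiffRiemannianBundle 𝓘(ℝ, E) ∞ E (fun x : N => TangentSpace 𝓘(ℝ, E) x) :=
  letI := rb g
  ⟨g.inner, g.contMDiff, fun _ _ _ => rfl⟩

theorem exists_geo [ConnectedSpace N] [T3Space N] [CompactSpace N]
    (g : Y503.HC.Metric 𝓘(ℝ, E) N) :
    letI := mS g
    ∃ R, Pool.Agent.Helper381.Geo N E R := by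
  letI := mS g
  letI := rb g
  haveI : IsContMDiffRiemannianBundle 𝓘(ℝ, E) ∞ E (fun x : N => TangentSpace 𝓘(ℝ, E) x) :=
    smooth_rb g
  haveI : IsRiemannianManifold 𝓘(ℝ, E) N := irm g
  exact Pool.Agent.Helper381.riemannian_geo (E := E) (M := N)

end

end Pool.Agent.Q145.TN
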