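import Pool.Agent.Q145.TN.Model

/-! The product metric and the isometries given by triples of linear isometries. -/

set_option autoImplicit false

namespace Pool.Agent.Q145.TN

open scoped Manifold ContDiff Topology ENNReal
open Bundle Manifold Set Filter Module

noncomputable section

/-- the Euclidean inner product of the ambient space -/
def BB : WW →L[ℝ] WW →L[ℝ] ℝ :=
  (innerSL ℝ).bilinearComp (ContinuousLinearMap.fst ℝ V3 (V3 × V3))
      (ContinuousLinearMap.fst ℝ V3 (V3 × V3)) +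
    ((innerSL ℝ).bilinearComp
      ((ContinuousLinearMap.fst ℝ V3 V3).comp (ContinuousLinearMap.snd ℝ V3 (V3 × V3)))
      ((ContinuousLinearMap.fst ℝ V3 V3).comp (ContinuousLinearMap.snd ℝ V3 (V3 × V3))) +
    (innerSL ℝ).bilinearComp
      ((ContinuousLinearMap.snd ℝ V3 V3).comp (ContinuousLinearMap.snd ℝ V3 (V3 × V3)))
      ((ContinuousLinearMap.snd ℝ V3 V3).comp (ContinuousLinearMap.snd ℝ V3 (V3 × V3))))

lemma BB_apply (v w : WW) : BB v w =
    inner ℝ v.1 w.1 + (inner ℝ v.2.1 w.2.1 + inner ℝ v.2.2 w.2.2) := rfl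

lemma BB_symm (v w : WW) : BB v w = BB w v := by
  rw [BB_apply, BB_apply, real_inner_comm, real_inner_comm v.2.1, real_inner_comm v.2.2]

lemma BB_pos (v : WW) (hv : v ≠ 0) : 0 < BB v v := by
  rw [BB_apply]
  have h1 : (0 : ℝ) ≤ inner ℝ v.1 v.1 := real_inner_self_nonneg
  have h2 : (0 : ℝ) ≤ inner ℝ v.2.1 v.2.1 := real_inner_self_nonneg
  have h3 : (0 : ℝ) ≤ inner ℝ v.2.2 v.2.2 := real_inner_self_nonneg
  by_contra hcon
  apply hv
  have e1 : inner ℝ v.1 v.1 = 0 := by linarith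
  have e2 : inner ℝ v.2.1 v.2.1 = 0 := by linarith
  have e3 : inner ℝ v.2.2 v.2.2 = 0 := by linarith
  rw [inner_self_eq_zero] at e1 e2 e3
  exact Prod.ext e1 (Prod.ext e2 e3)

/-- the product metric -/
def gM : Y503.HC.Metric 𝓘(ℝ, EE) MM :=
  Pool.Agent.H839R2.Geo.embMetric inc inc_smooth D_inj (fun _ => BB)
    (fun _ => contDiffAt_const) (fun _ v w => BB_symm v w) (fun _ v hv => BB_pos v hv)

lemma gM_apply (x : MM) (v w : EE) :
    (gM.inner x : EE →L[ℝ] EE →L[ℝ] ℝ) v w = BB (D x v) (D x w) := rfl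

/-- linear isometries of three-space -/
abbrev LI : Type := V3 ≃ₗᵢ[ℝ] V3

/-- the action of a linear isometry on the sphere -/
def actS (a : LI) (x : S) : S := ⟨a x, by
  rw [mem_sphere_zero_iff_norm, a.norm_map]; exact mem_sphere_zero_iff_norm.1 x.2⟩

@[simp] lemma actS_coe (a : LI) (x : S) : ((actS a x : S) : V3) = a x := rfl

/-- the action of a triple of linear isometries -/
def act (a b c : LI) (x : MM) : MM := mk (actS a x.1) (actS b x.2.1) (actS c x.2.2)

lemma inc_injective : Function.Injective inc := by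
  intro x y h
  have h1 : (x.1 : V3) = y.1 := congrArg Prod.fst h
  have h2 : (x.2.1 : V3) = y.2.1 := congrArg (fun w : WW => w.2.1) h
  have h3 : (x.2.2 : V3) = y.2.2 := congrArg (fun w : WW => w.2.2) h
  exact Prod.ext (Subtype.ext h1) (Prod.ext (Subtype.ext h2) (Subtype.ext h3))

lemma act_smooth (a b c : LI) : ContMDiff 𝓘(ℝ, EE) 𝓘(ℝ, EE) ∞ (act a b c) := by
  have h1 : ContMDiff 𝓘(ℝ, EE) 𝓘(ℝ, V3) ∞ (fun x : MM => a (x.1 : V3)) :=
    (a.toContinuousLinearEquiv.contDiff.comp contDiff_fst).contMDiff.comp inc_smooth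
  have h2 : ContMDiff 𝓘(ℝ, EE) 𝓘(ℝ, V3) ∞ (fun x : MM => b (x.2.1 : V3)) :=
    (b.toContinuousLinearEquiv.contDiff.comp (contDiff_fst.comp contDiff_snd)).contMDiff.comp
      inc_smooth
  have h3 : ContMDiff 𝓘(ℝ, EE) 𝓘(ℝ, V3) ∞ (fun x : MM => c (x.2.2 : V3)) :=
    (c.toContinuousLinearEquiv.contDiff.comp (contDiff_snd.comp contDiff_snd)).contMDiff.comp
      inc_smooth
  exact mk_smooth h1 h2 h3 (fun x => (actS a x.1).2) (fun x => (actS b x.2.1).2)
    (fun x => (actS c x.2.2).2)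

/-- the ambient linear map of a triple -/
def amb (a b c : LI) : WW →L[ℝ] WW :=
  ((a.toContinuousLinearEquiv : V3 →L[ℝ] V3)).prodMap
    (((b.toContinuousLinearEquiv : V3 →L[ℝ] V3)).prodMap
      ((c.toContinuousLinearEquiv : V3 →L[ℝ] V3)))

lemma amb_apply (a b c : LI) (w : WW) : amb a b c w = (a w.1, b w.2.1, c w.2.2) := rfl

lemma inc_act (a b c : LI) (x : MM) : inc (act a b c x) = amb a b c (inc x) := rfl

lemma D_act (a b c : LI) (x : MM) (v : EE) :
    D (act a b c x) (mfderiv 𝓘(ℝ, EE) 𝓘(ℝ, EE) (act a b c) x v : EE) = amb a b c (D x v) := by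
  have d1 : MDifferentiableAt 𝓘(ℝ, EE) 𝓘(ℝ, WW) inc (act a b c x) :=
    (inc_smooth _).mdifferentiableAt (by simp)
  have d2 : MDifferentiableAt 𝓘(ℝ, EE) 𝓘(ℝ, EE) (act a b c) x :=
    (act_smooth a b c x).mdifferentiableAt (by simp)
  have d3 : MDifferentiableAt 𝓘(ℝ, EE) 𝓘(ℝ, WW) inc x := (inc_smooth _).mdifferentiableAt (by simp)
  have e1 := mfderiv_comp x d1 d2
  have e2 : inc ∘ act a b c = amb a b c ∘ inc := rfl
  have e3 := ((amb a b c).hasFDerivAt (x := inc x)).hasMFDerivAt.comp x d3.hasMFDerivAt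
  have e4 : (mfderiv 𝓘(ℝ, EE) 𝓘(ℝ, WW) (inc ∘ act a b c) x : EE →L[ℝ] WW) v =
    D (act a b c x) (mfderiv 𝓘(ℝ, EE) 𝓘(ℝ, EE) (act a b c) x v : EE) :=
    congrArg (fun L : EE →L[ℝ] WW => L v) e1
  have e5 : (mfderiv 𝓘(ℝ, EE) 𝓘(ℝ, WW) (amb a b c ∘ inc) x : EE →L[ℝ] WW) v =
    amb a b c (D x v) := congrArg (fun L : EE →L[ℝ] WW => L v) e3.mfderiv
  rw [← e4, e2, e5]

lemma act_iso (a b c : LI) (x : MM) (v w : TangentSpace 𝓘(ℝ, EE) x) :
    gM.inner (act a b c x) (mfderiv 𝓘(ℝ, EE) 𝓘(ℝ, EE) (act a b c) x v)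
      (mfderiv 𝓘(ℝ, EE) 𝓘(ℝ, EE) (act a b c) x w) = gM.inner x v w := by
  have h1 : (gM.inner (act a b c x) : EE →L[ℝ] EE →L[ℝ] ℝ)
      (mfderiv 𝓘(ℝ, EE) 𝓘(ℝ, EE) (act a b c) x v) (mfderiv 𝓘(ℝ, EE) 𝓘(ℝ, EE) (act a b c) x w) =
      BB (D (act a b c x) (mfderiv 𝓘(ℝ, EE) 𝓘(ℝ, EE) (act a b c) x v : EE))
        (D (act a b c x) (mfderiv 𝓘(ℝ, EE) 𝓘(ℝ, EE) (act a b c) x w : EE)) := rfl
  refine Eq.trans h1 ?_
  refine Eq.trans (congrArg₂ (fun p q => BB p q) (D_act a b c x v) (D_act a b c x w)) ?_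
  have h2 : BB (amb a b c (D x v)) (amb a b c (D x w)) = BB (D x v) (D x w) := by
    rw [amb_apply, amb_apply, BB_apply, BB_apply]
    simp only [LinearIsometryEquiv.inner_map_map]
  exact h2

lemma act_act (a b c a' b' c' : LI) (x : MM) :
    act a b c (act a' b' c' x) = act (a'.trans a) (b'.trans b) (c'.trans c) x := rfl

/-- the diffeomorphism -/
def actD (a b c : LI) : Diffeomorph 𝓘(ℝ, EE) 𝓘(ℝ, EE) MM MM ∞ where
  toFun := act a b c
  invFun := act a.symm b.symm c.symm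
  left_inv x := by
    apply inc_injective
    rw [inc_act, inc_act, amb_apply, amb_apply]
    simp
  right_inv x := by
    apply inc_injective
    rw [inc_act, inc_act, amb_apply, amb_apply]
    simp
  contMDiff_toFun := act_smooth a b c
  contMDiff_invFun := act_smooth a.symm b.symm c.symm

lemma actD_iso (a b c : LI) : Y503.HC.IsIsometry gM (actD a b c) :=
  fun x v w => act_iso a b c x v w

/-! ### The group of even sign changes -/

/-- multiplication by a sign -/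
def sg (s : ℤˣ) : LI := if s = 1 then LinearIsometryEquiv.refl ℝ V3 else LinearIsometryEquiv.neg ℝ

lemma sg_apply (s : ℤˣ) (v : V3) : sg s v = ((s : ℤ) : ℝ) • v := by
  rcases Int.units_eq_one_or s with rfl | rfl
  · simp [sg]
  · have h : ¬ ((-1 : ℤˣ) = 1) := by decide
    simp [sg, h]

/-- the group of even sign changes: `(s, t)` acts by `(s, t, s t)` -/
abbrev Γ : Type := ℤˣ × ℤˣ

instance : MulAction Γ MM where
  smul γ x := act (sg γ.1) (sg γ.2) (sg (γ.1 * γ.2)) x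
  one_smul x := by
    apply inc_injective
    show inc (act (sg 1) (sg 1) (sg (1 * 1)) x) = inc x
    rw [inc_act, amb_apply]
    simp only [sg_apply, mul_one, Units.val_one, Int.cast_one, one_smul]
  mul_smul γ δ x := by
    apply inc_injective
    show inc (act (sg (γ.1 * δ.1)) (sg (γ.2 * δ.2)) (sg (γ.1 * δ.1 * (γ.2 * δ.2))) x) =
      inc (act (sg γ.1) (sg γ.2) (sg (γ.1 * γ.2)) (act (sg δ.1) (sg δ.2) (sg (δ.1 * δ.2)) x))
    rw [inc_act, inc_act, inc_act, amb_apply, amb_apply, amb_apply]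
    simp only [sg_apply, smul_smul]
    push_cast
    refine Prod.ext rfl (Prod.ext rfl ?_)
    show _ • _ = _ • _
    congr 1
    ring

lemma smul_def' (γ : Γ) (x : MM) : γ • x = act (sg γ.1) (sg γ.2) (sg (γ.1 * γ.2)) x := rfl

lemma sg_fix {s : ℤˣ} {x : S} (h : sg s (x : V3) = x) : s = 1 := by
  rcases Int.units_eq_one_or s with rfl | rfl
  · rfl
  · exfalso
    rw [sg_apply] at h
    have h2 : (x : V3) = 0 := by
      have : (2 : ℝ) • (x : V3) = 0 := by
        have h3 : (-1 : ℝ) • (x : V3) = x := by simpa using h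
        have : (2 : ℝ) • (x : V3) = x - (-1 : ℝ) • (x : V3) := by module
        rw [this, h3, sub_self]
      simpa using this
    have h4 : ‖(x : V3)‖ = 1 := mem_sphere_zero_iff_norm.1 x.2
    rw [h2] at h4
    simp at h4

lemma free (γ : Γ) (x : MM) (h : γ • x = x) : γ = 1 := by
  have h0 : inc (γ • x) = inc x := by rw [h]
  rw [smul_def', inc_act, amb_apply] at h0
  have h1 : sg γ.1 (x.1 : V3) = x.1 := congrArg Prod.fst h0
  have h2 : sg γ.2 (x.2.1 : V3) = x.2.1 := congrArg (fun w : WW => w.2.1) h0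
  exact Prod.ext (sg_fix h1) (sg_fix h2)

end

end Pool.Agent.Q145.TN
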