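import Pool.Agent.Y503.HC.Len

/-! Isometries of a manifold which are compatible with a Riemannian covering descend. -/

set_option autoImplicit false

namespace Pool.Agent.Q145.TN

open scoped Manifold ContDiff Topology ENNReal
open Bundle Manifold Set Filter

noncomputable section

variable {E : Type} [NormedAddCommGroup E] [NormedSpace ℝ E] {H : Type} [TopologicalSpace H]
  {I : ModelWithCorners ℝ E H}
  {M : Type} [TopologicalSpace M] [ChartedSpace H M] [IsManifold I ∞ M]
  {N : Type} [TopologicalSpace N] [ChartedSpace H N] [IsManifold I ∞ N]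
  {g : Y503.HC.Metric I M} {g' : Y503.HC.Metric I N} {p : M → N}

/-- A smooth map preserving the metric and compatible with the fibres of a Riemannian covering
descends to a smooth map which does not increase the distances. -/
theorem descend (hp : IsLocalDiffeomorph I I ∞ p) (hs : Function.Surjective p)
    (hind : ∀ (x : M) (v w : TangentSpace I x),
      g'.inner (p x) (mfderiv I I p x v) (mfderiv I I p x w) = g.inner x v w)
    {F : M → M} (hF : ContMDiff I I ∞ F)
    (hiso : ∀ (x : M) (v : TangentSpace I x),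
      g.inner (F x) (mfderiv I I F x v) (mfderiv I I F x v) = g.inner x v v)
    (hc : ∀ x y, p x = p y → p (F x) = p (F y)) :
    ∃ Φ : N → N, (∀ x, Φ (p x) = p (F x)) ∧ ContMDiff I I ∞ Φ ∧
      ∀ a b, Y503.HC.dist g' (Φ a) (Φ b) ≤ Y503.HC.dist g' a b := by
  set Φ : N → N := fun n => p (F (Function.surjInv hs n)) with hΦ
  have h1 : ∀ x, Φ (p x) = p (F x) := fun x => hc _ _ (Function.surjInv_eq hs (p x))
  have h2 : ContMDiff I I ∞ Φ := by
    intro n
    obtain ⟨x, rfl⟩ := hs n
    have hl := hp x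
    have e1 : ContMDiffAt I I ∞ hl.localInverse (p x) := hl.localInverse_contMDiffAt
    have e2 : ContMDiffAt I I ∞ (fun y => p (F y)) (hl.localInverse (p x)) :=
      (hp.contMDiff _).comp _ (hF _)
    have e3 : ContMDiffAt I I ∞ (fun m => p (F (hl.localInverse m))) (p x) :=
      ContMDiffAt.comp (g := fun y => p (F y)) (f := hl.localInverse) (p x) e2 e1
    refine e3.congr_of_eventuallyEq ?_
    filter_upwards [hl.localInverse.open_source.mem_nhds hl.localInverse_mem_source] with m hm
    rw [← h1, hl.localInverse_right_inv hm]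
  refine ⟨Φ, h1, h2, fun a b => Y503.HC.dist_map_le g' g' h2 ?_ a b⟩
  intro n v
  obtain ⟨x, rfl⟩ := hs n
  obtain ⟨u, hu⟩ : ∃ u : E, (mfderiv I I p x : E →L[ℝ] E) u = (v : E) :=
    ((hp x).mfderivToContinuousLinearEquiv (by simp)).surjective v
  have d1 : MDifferentiableAt I I Φ (p x) := (h2 _).mdifferentiableAt (by simp)
  have d2 : MDifferentiableAt I I p x := (hp.contMDiff _).mdifferentiableAt (by simp)
  have d3 : MDifferentiableAt I I p (F x) := (hp.contMDiff _).mdifferentiableAt (by simp)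
  have d4 : MDifferentiableAt I I F x := (hF _).mdifferentiableAt (by simp)
  have e1 := mfderiv_comp x d1 d2
  have e2 := mfderiv_comp x d3 d4
  have e3 : Φ ∘ p = p ∘ F := funext h1
  have e5 : (mfderiv I I Φ (p x) : E →L[ℝ] E) ((mfderiv I I p x : E →L[ℝ] E) u) =
      (mfderiv I I p (F x) : E →L[ℝ] E) ((mfderiv I I F x : E →L[ℝ] E) u) := by
    have a1 : (mfderiv I I (Φ ∘ p) x : E →L[ℝ] E) u =
      (mfderiv I I Φ (p x) : E →L[ℝ] E) ((mfderiv I I p x : E →L[ℝ] E) u) :=
      congrArg (fun L : E →L[ℝ] E => L u) e1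
    have a2 : (mfderiv I I (p ∘ F) x : E →L[ℝ] E) u =
      (mfderiv I I p (F x) : E →L[ℝ] E) ((mfderiv I I F x : E →L[ℝ] E) u) :=
      congrArg (fun L : E →L[ℝ] E => L u) e2
    rw [← a1, ← a2, e3]
  have h3 := hind (F x) (mfderiv I I F x u) (mfderiv I I F x u)
  have h4 := hind x u u
  have h5 := hiso x u
  have h6 : (g'.inner (Φ (p x)) : E →L[ℝ] E →L[ℝ] ℝ)
      ((mfderiv I I Φ (p x) : E →L[ℝ] E) ((mfderiv I I p x : E →L[ℝ] E) u))
      ((mfderiv I I Φ (p x) : E →L[ℝ] E) ((mfderiv I I p x : E →L[ℝ] E) u)) =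
      (g'.inner (p x) : E →L[ℝ] E →L[ℝ] ℝ) ((mfderiv I I p x : E →L[ℝ] E) u)
        ((mfderiv I I p x : E →L[ℝ] E) u) := by
    rw [e5]
    refine (Y503.HC.inner_congr' g' (h1 x) _ _).trans ?_
    exact h3.trans (h5.trans h4.symm)
  rw [hu] at h6
  exact h6

end

end Pool.Agent.Q145.TN
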