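import Pool.Agent.Q145.TN.Quo

/-! Lower bound for the total mod 2 Betti number of the quotient. -/

set_option autoImplicit false

namespace Pool.Agent.Q145.TN

open scoped Manifold ContDiff Topology ENNReal
open Bundle Manifold Set Filter Module

noncomputable section

/-- the unit vectors of the axes -/
def ek (k : Fin 3) : S := ⟨EuclideanSpace.single k (1 : ℝ), by
  rw [mem_sphere_zero_iff_norm]; simp⟩

lemma ek_apply (k i : Fin 3) : (ek k : V3) i = if i = k then 1 else 0 := by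
  simp [ek]

/-- the reflection which negates the coordinate `j` -/
def rc (j : Fin 3) : LI := (rf (ek j)).trans (LinearIsometryEquiv.neg ℝ)

lemma rc_apply (j : Fin 3) (v : V3) (k : Fin 3) : (rc j v) k = if k = j then - v k else v k := by
  have h : rc j v = v - (2 * inner ℝ (ek j : V3) v) • (ek j : V3) := by
    show -(rf (ek j) v) = _
    rw [rf_apply]; abel
  have h2 : inner ℝ (ek j : V3) v = v j := by
    simp [ek, EuclideanSpace.inner_single_left]
  rw [h, h2]
  simp only [PiLp.sub_apply, PiLp.smul_apply, smul_eq_mul, ek_apply]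
  split_ifs with h3
  · subst h3; ring
  · ring

lemma rc_rc (j : Fin 3) (v : V3) : rc j (rc j v) = v := by
  ext k
  rw [rc_apply, rc_apply]
  split_ifs <;> simp

lemma rc_comm (i j : Fin 3) (v : V3) : rc i (rc j v) = rc j (rc i v) := by
  ext k
  simp only [rc_apply]
  split_ifs <;> simp

/-- the sign of the reflection on an axis -/
def chi (j k : Fin 3) : ℤˣ := if k = j then -1 else 1

lemma rc_ek (j k : Fin 3) : rc j (ek k) = sg (chi j k) (ek k) := by
  ext i
  rw [rc_apply, sg_apply, PiLp.smul_apply, smul_eq_mul, ek_apply]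
  unfold chi
  by_cases h1 : i = k
  · subst h1
    by_cases h2 : i = j
    · simp [h2]
    · simp [h2]
  · simp [h1]

/-- the finite set of the unit vectors of the axes -/
def TS : Set S := {y | ∀ k, (y : V3) k = 0 ∨ (y : V3) k = 1 ∨ (y : V3) k = -1}

lemma TS_finite : TS.Finite := by
  have h1 : (Set.pi univ (fun _ : Fin 3 => ({0, 1, -1} : Set ℝ))).Finite :=
    Set.Finite.pi fun _ => Set.toFinite _
  have h2 : TS = (fun y : S => (fun k => (y : V3) k : Fin 3 → ℝ)) ⁻¹'
      (Set.pi univ (fun _ : Fin 3 => ({0, 1, -1} : Set ℝ))) := by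
    ext y
    simp [TS, Set.mem_pi]
  rw [h2]
  apply h1.preimage
  intro x _ y _ hxy
  apply Subtype.ext
  ext k
  exact congrFun hxy k

lemma sq_one (y : S) : (y : V3) 0 ^ 2 + (y : V3) 1 ^ 2 + (y : V3) 2 ^ 2 = 1 := by
  have h := nrmS y
  have h2 := EuclideanSpace.norm_sq_eq (y : V3)
  rw [h, Fin.sum_univ_three] at h2
  simp only [Real.norm_eq_abs, sq_abs] at h2
  linarith

lemma mem_TS {y : S} {s t : ℤˣ} (h1 : rc 1 y = sg s y) (h2 : rc 2 y = sg t y) : y ∈ TS := by
  have a := fun k => congrArg (fun v : V3 => v k) h1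
  have b := fun k => congrArg (fun v : V3 => v k) h2
  simp only [rc_apply, sg_apply, PiLp.smul_apply, smul_eq_mul] at a b
  have a0 := a 0
  have a1 := a 1
  have a2 := a 2
  have b0 := b 0
  have b1 := b 1
  have b2 := b 2
  have hs := sq_one y
  simp only [show ¬ ((0 : Fin 3) = 1) by decide, show ¬ ((2 : Fin 3) = 1) by decide,
    show ¬ ((0 : Fin 3) = 2) by decide, show ¬ ((1 : Fin 3) = 2) by decide, if_true, if_false]
    at a0 a1 a2 b0 b1 b2
  have key : ((y : V3) 0 = 0 ∧ (y : V3) 1 = 0) ∨ ((y : V3) 0 = 0 ∧ (y : V3) 2 = 0) ∨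
      ((y : V3) 1 = 0 ∧ (y : V3) 2 = 0) := by
    rcases Int.units_eq_one_or s with rfl | rfl
    · rcases Int.units_eq_one_or t with rfl | rfl
      · right; right
        push_cast at a1 b2
        constructor <;> linarith
      · left
        push_cast at a1 b0
        constructor <;> linarith
    · right; left
      push_cast at a0 a2
      constructor <;> linarith
  have sq : ∀ r : ℝ, r ^ 2 = 1 → r = 0 ∨ r = 1 ∨ r = -1 := by
    intro r hr
    right
    have h0 : (r - 1) * (r + 1) = 0 := by linear_combination hr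
    rcases mul_eq_zero.1 h0 with h0 | h0
    · left; linarith
    · right; linarith
  intro k
  rcases key with ⟨e1, e2⟩ | ⟨e1, e2⟩ | ⟨e1, e2⟩
  · have e3 : (y : V3) 2 ^ 2 = 1 := by rw [e1, e2] at hs; linarith
    fin_cases k
    · exact Or.inl e1
    · exact Or.inl e2
    · exact sq _ e3
  · have e3 : (y : V3) 1 ^ 2 = 1 := by rw [e1, e2] at hs; linarith
    fin_cases k
    · exact Or.inl e1
    · exact sq _ e3
    · exact Or.inl e2
  · have e3 : (y : V3) 0 ^ 2 = 1 := by rw [e1, e2] at hs; linarith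
    fin_cases k
    · exact sq _ e3
    · exact Or.inl e1
    · exact Or.inl e2

/-- the invariant tensor -/
def ten (x : MM) (b : Fin 3 × Fin 3 × Fin 3) : ℝ :=
  (x.1 : V3) b.1 * (x.2.1 : V3) b.2.1 * (x.2.2 : V3) b.2.2

lemma ten_smul (γ : Γ) (x : MM) (b : Fin 3 × Fin 3 × Fin 3) : ten (γ • x) b = ten x b := by
  have h : ten (γ • x) b = (sg γ.1 (x.1 : V3)) b.1 * (sg γ.2 (x.2.1 : V3)) b.2.1 *
    (sg (γ.1 * γ.2) (x.2.2 : V3)) b.2.2 := rfl
  rw [h]
  simp only [sg_apply, PiLp.smul_apply, smul_eq_mul]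
  unfold ten
  rcases Int.units_eq_one_or γ.1 with h1 | h1 <;> rcases Int.units_eq_one_or γ.2 with h2 | h2 <;>
    rw [h1, h2] <;> simp

/-- the seven triples -/
def B : Finset (Fin 3 × Fin 3 × Fin 3) :=
  {(0, 0, 0), (0, 1, 1), (0, 2, 2), (1, 0, 1), (1, 1, 0), (2, 0, 2), (2, 2, 0)}

lemma B_card : B.card = 7 := by decide

lemma B_chi : ∀ b ∈ B, ∀ j : Fin 3, j ≠ 0 → chi j b.1 * chi j b.2.1 * chi j b.2.2 = 1 := by
  decide

/-- the fourteen points upstairs -/
def P (q : ℤˣ × (Fin 3 × Fin 3 × Fin 3)) : MM :=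
  mk (actS (sg q.1) (ek q.2.1)) (ek q.2.2.1) (ek q.2.2.2)

lemma ten_P (q : ℤˣ × (Fin 3 × Fin 3 × Fin 3)) (b : Fin 3 × Fin 3 × Fin 3) :
    ten (P q) b = if b = q.2 then ((q.1 : ℤ) : ℝ) else 0 := by
  have h : ten (P q) b = (sg q.1 (ek q.2.1 : V3)) b.1 * (ek q.2.2.1 : V3) b.2.1 *
    (ek q.2.2.2 : V3) b.2.2 := rfl
  rw [h]
  simp only [sg_apply, PiLp.smul_apply, smul_eq_mul, ek_apply]
  by_cases h1 : b = q.2
  · subst h1; simp
  · rw [if_neg h1]
    by_cases h2 : b.1 = q.2.1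
    · by_cases h3 : b.2.1 = q.2.2.1
      · by_cases h4 : b.2.2 = q.2.2.2
        · exact absurd (Prod.ext h2 (Prod.ext h3 h4)) h1
        · simp [h4]
      · simp [h3]
    · simp [h2]

variable {N : Type} [TopologicalSpace N] [ChartedSpace EE N] [IsManifold 𝓘(ℝ, EE) ∞ N]
  {g' : Y503.HC.Metric 𝓘(ℝ, EE) N} {p : MM → N}

lemma pP_injective (hq : Y503.HC.IsQuotient Γ gM g' p) : Function.Injective (fun q => p (P q)) := by
  intro q r h
  obtain ⟨γ, hγ⟩ := (hq.fibre _ _).1 h
  have h1 : ∀ b, ten (P q) b = ten (P r) b := by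
    intro b
    rw [← hγ, ten_smul]
  have h2 := h1 q.2
  rw [ten_P, ten_P, if_pos rfl] at h2
  have hne : ((q.1 : ℤ) : ℝ) ≠ 0 := by
    exact_mod_cast q.1.ne_zero
  by_cases h3 : q.2 = r.2
  · rw [if_pos h3] at h2
    have h4 : (q.1 : ℤ) = (r.1 : ℤ) := by exact_mod_cast h2
    exact Prod.ext (Units.ext h4) h3
  · rw [if_neg h3] at h2
    exact absurd h2 hne

variable [ConnectedSpace N] [T3Space N]

/-- the two commuting involutions -/
def gg (hq : Y503.HC.IsQuotient Γ gM g' p) (j : Fin 3) :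
    letI := mS g'
    N ≃ᵢ N :=
  inv hq (rc j) (rc j) (rc j) (rc_rc j) (rc_rc j) (rc_rc j)

lemma gg_apply (hq : Y503.HC.IsQuotient Γ gM g' p) (j : Fin 3) (x : MM) :
    letI := mS g'
    gg hq j (p x) = p (act (rc j) (rc j) (rc j) x) :=
  inv_apply hq _ _ _ _ _ _ x

lemma gg_gg (hq : Y503.HC.IsQuotient Γ gM g' p) (j : Fin 3) (n : N) :
    letI := mS g'
    gg hq j (gg hq j n) = n :=
  inv_inv hq _ _ _ _ _ _ n

lemma gg_comm (hq : Y503.HC.IsQuotient Γ gM g' p) (i j : Fin 3) (n : N) :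
    letI := mS g'
    gg hq i (gg hq j n) = gg hq j (gg hq i n) := by
  obtain ⟨x, rfl⟩ := hq.surjective n
  rw [gg_apply, gg_apply, gg_apply, gg_apply]
  congr 1
  apply inc_injective
  rw [inc_act, inc_act, inc_act, inc_act, amb_apply, amb_apply, amb_apply, amb_apply]
  exact Prod.ext (rc_comm i j _) (Prod.ext (rc_comm i j _) (rc_comm i j _))

lemma gg_fix_P (hq : Y503.HC.IsQuotient Γ gM g' p) (j : Fin 3) (hj : j ≠ 0)
    (q : ℤˣ × (Fin 3 × Fin 3 × Fin 3)) (hb : q.2 ∈ B) :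
    letI := mS g'
    gg hq j (p (P q)) = p (P q) := by
  rw [gg_apply, hq.fibre]
  refine ⟨(chi j q.2.1, chi j q.2.2.1), ?_⟩
  have h := B_chi q.2 hb j hj
  apply inc_injective
  rw [smul_def', inc_act, inc_act, amb_apply, amb_apply]
  have hc : ∀ c : ℤˣ, c * c = 1 := fun c => by
    rcases Int.units_eq_one_or c with rfl | rfl <;> decide
  have h1 : ∀ (c s : ℤˣ) (v : V3), sg c (sg s v) = sg (c * s) v := by
    intro c s v
    rw [sg_apply, sg_apply, sg_apply, smul_smul]
    push_cast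
    rfl
  have e1 : sg (chi j q.2.1) (rc j (sg q.1 (ek q.2.1 : V3))) = sg q.1 (ek q.2.1 : V3) := by
    have : rc j (sg q.1 (ek q.2.1 : V3)) = sg q.1 (rc j (ek q.2.1 : V3)) := by
      rw [sg_apply, sg_apply, map_smul]
    rw [this, rc_ek, h1, h1]
    congr 2
    rw [mul_right_comm, hc, one_mul]
  have e2 : sg (chi j q.2.2.1) (rc j (ek q.2.2.1 : V3)) = (ek q.2.2.1 : V3) := by
    rw [rc_ek, h1, hc]
    simp [sg]
  have e3 : sg (chi j q.2.1 * chi j q.2.2.1) (rc j (ek q.2.2.2 : V3)) = (ek q.2.2.2 : V3) := by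
    rw [rc_ek, h1, h]
    simp [sg]
  exact Prod.ext e1 (Prod.ext e2 e3)

lemma fix_finite (hq : Y503.HC.IsQuotient Γ gM g' p) :
    letI := mS g'
    {n : N | ∀ g ∈ [gg hq 1, gg hq 2], g n = n}.Finite := by
  let _ := mS g'
  have hT : ({x : MM | x.1 ∈ TS ∧ x.2.1 ∈ TS ∧ x.2.2 ∈ TS}).Finite :=
    TS_finite.prod (TS_finite.prod TS_finite)
  refine (hT.image p).subset ?_
  intro n hn
  obtain ⟨x, rfl⟩ := hq.surjective n
  have key : ∀ j, gg hq j (p x) = p x → ∃ γ : Γ, rc j (x.1 : V3) = sg γ.1 x.1 ∧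
      rc j (x.2.1 : V3) = sg γ.2 x.2.1 ∧ rc j (x.2.2 : V3) = sg (γ.1 * γ.2) x.2.2 := by
    intro j hj
    have h1 : p x = p (act (rc j) (rc j) (rc j) x) := by
      rw [← gg_apply hq j x]
      exact hj.symm
    obtain ⟨γ, hγ⟩ := (hq.fibre _ _).1 h1
    have h2 : inc (γ • x) = inc (act (rc j) (rc j) (rc j) x) := by rw [hγ]
    rw [smul_def', inc_act, inc_act, amb_apply, amb_apply] at h2
    exact ⟨γ, (congrArg Prod.fst h2).symm, (congrArg (fun w : WW => w.2.1) h2).symm,
      (congrArg (fun w : WW => w.2.2) h2).symm⟩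
  obtain ⟨γ, a1, a2, a3⟩ := key 1 (hn _ (by simp))
  obtain ⟨δ, b1, b2, b3⟩ := key 2 (hn _ (by simp))
  exact ⟨x, ⟨mem_TS a1 b1, mem_TS a2 b2, mem_TS a3 b3⟩, rfl⟩

theorem fourteen_le (hq : Y503.HC.IsQuotient Γ gM g' p) [CompactSpace N] :
    letI := mS g'
    (14 : ℕ∞) ≤ Pool.Agent.Helper381.totalBetti (ZMod 2) N := by
  classical
  let _ := mS g'
  obtain ⟨R, G⟩ := exists_geo g'
  set A : Finset N := (Finset.univ ×ˢ B).image (fun q => p (P q)) with hA
  have hcard : A.card = 14 := by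
    rw [hA, Finset.card_image_of_injective _ (pP_injective hq), Finset.card_product, B_card]
    rfl
  have hne : Nonempty N := ⟨p (P (1, (0, 0, 0)))⟩
  have := card_le_of_finite G [gg hq 1, gg hq 2] ?_ ?_ A ?_ (fix_finite hq)
  · rw [hcard] at this
    exact this
  · intro g hg x
    simp only [List.mem_cons, List.not_mem_nil, or_false] at hg
    rcases hg with rfl | rfl
    · exact gg_gg hq 1 x
    · exact gg_gg hq 2 x
  · intro g hg h hh x
    simp only [List.mem_cons, List.not_mem_nil, or_false] at hg hh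
    rcases hg with rfl | rfl <;> rcases hh with rfl | rfl
    · rfl
    · exact gg_comm hq 1 2 x
    · exact gg_comm hq 2 1 x
    · rfl
  · intro g hg a ha
    rw [hA, Finset.mem_image] at ha
    obtain ⟨q, hq', rfl⟩ := ha
    have hb : q.2 ∈ B := (Finset.mem_product.1 hq').2
    simp only [List.mem_cons, List.not_mem_nil, or_false] at hg
    rcases hg with rfl | rfl
    · exact gg_fix_P hq 1 (by decide) q hb
    · exact gg_fix_P hq 2 (by decide) q hb

end

end Pool.Agent.Q145.TN
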