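import Pool.Agent.Q145.TN.Descend
import Pool.Agent.H839R2.Geo.Embed

/-! The product of three two-spheres as a Riemannian manifold. -/

set_option autoImplicit false

namespace Pool.Agent.Q145.TN

open scoped Manifold ContDiff Topology ENNReal
open Bundle Manifold Set Filter Module

noncomputable section

/-- Euclidean three-space -/
abbrev V3 : Type := EuclideanSpace ℝ (Fin 3)

instance factV3 : Fact (finrank ℝ V3 = 2 + 1) := ⟨by simp⟩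

/-- the model of the two-sphere -/
abbrev E2 : Type := EuclideanSpace ℝ (Fin 2)

/-- the two-sphere -/
abbrev S : Type := Metric.sphere (0 : V3) 1

/-- the model of the product of three two-spheres -/
abbrev EE : Type := E2 × (E2 × E2)

/-- the product of three two-spheres -/
def MM : Type := S × (S × S)

instance : TopologicalSpace MM := inferInstanceAs (TopologicalSpace (S × (S × S)))

instance csMM : ChartedSpace EE MM :=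
  (inferInstance : ChartedSpace (ModelProd E2 (ModelProd E2 E2)) (S × (S × S)))

instance : IsManifold 𝓘(ℝ, EE) ∞ MM := by
  rw [modelWithCornersSelf_prod, modelWithCornersSelf_prod]
  exact (inferInstance : IsManifold ((𝓡 2).prod ((𝓡 2).prod (𝓡 2))) ∞ (S × (S × S)))

instance : T2Space MM := inferInstanceAs (T2Space (S × (S × S)))

instance : CompactSpace MM := inferInstanceAs (CompactSpace (S × (S × S)))

/-- the ambient vector space -/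
abbrev WW : Type := V3 × (V3 × V3)

lemma II_eq : 𝓘(ℝ, EE) = (𝓡 2).prod ((𝓡 2).prod (𝓡 2)) := by
  rw [modelWithCornersSelf_prod, modelWithCornersSelf_prod]

/-- the inclusion -/
def inc (x : MM) : WW := ((x.1 : V3), (x.2.1 : V3), (x.2.2 : V3))

lemma inc_smooth : ContMDiff 𝓘(ℝ, EE) 𝓘(ℝ, WW) ∞ inc := by
  rw [II_eq]
  have h1 : ContMDiff ((𝓡 2).prod ((𝓡 2).prod (𝓡 2))) 𝓘(ℝ, V3) ∞
      (fun x : S × (S × S) => (x.1 : V3)) := (contMDiff_coe_sphere (m := ∞)).comp contMDiff_fst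
  have h2 : ContMDiff ((𝓡 2).prod ((𝓡 2).prod (𝓡 2))) 𝓘(ℝ, V3) ∞
      (fun x : S × (S × S) => (x.2.1 : V3)) :=
    (contMDiff_coe_sphere (m := ∞)).comp (contMDiff_fst.comp contMDiff_snd)
  have h3 : ContMDiff ((𝓡 2).prod ((𝓡 2).prod (𝓡 2))) 𝓘(ℝ, V3) ∞
      (fun x : S × (S × S) => (x.2.2 : V3)) :=
    (contMDiff_coe_sphere (m := ∞)).comp (contMDiff_snd.comp contMDiff_snd)
  exact h1.prodMk_space (h2.prodMk_space h3)

/-- the point with given components -/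
def mk (a b c : S) : MM := (a, b, c)

/-- a smooth map into the ambient space with values in the product of spheres is smooth as a map
to the product -/
lemma mk_smooth {f1 f2 f3 : MM → V3} (h1 : ContMDiff 𝓘(ℝ, EE) 𝓘(ℝ, V3) ∞ f1)
    (h2 : ContMDiff 𝓘(ℝ, EE) 𝓘(ℝ, V3) ∞ f2) (h3 : ContMDiff 𝓘(ℝ, EE) 𝓘(ℝ, V3) ∞ f3)
    (m1 : ∀ x, f1 x ∈ Metric.sphere (0 : V3) 1) (m2 : ∀ x, f2 x ∈ Metric.sphere (0 : V3) 1)
    (m3 : ∀ x, f3 x ∈ Metric.sphere (0 : V3) 1) :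
    ContMDiff 𝓘(ℝ, EE) 𝓘(ℝ, EE) ∞
      (fun x : MM => mk ⟨f1 x, m1 x⟩ ⟨f2 x, m2 x⟩ ⟨f3 x, m3 x⟩) := by
  have e1 := h1.codRestrict_sphere (n := 2) m1
  have e2 := h2.codRestrict_sphere (n := 2) m2
  have e3 := h3.codRestrict_sphere (n := 2) m3
  have e4 := e1.prodMk (e2.prodMk e3)
  have key : ∀ (J : ModelWithCorners ℝ EE EE), J = (𝓡 2).prod ((𝓡 2).prod (𝓡 2)) →
    ContMDiff 𝓘(ℝ, EE) J ∞
      (fun x : MM => mk ⟨f1 x, m1 x⟩ ⟨f2 x, m2 x⟩ ⟨f3 x, m3 x⟩) := by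
    rintro J rfl
    exact e4
  exact key _ II_eq

lemma coe_mdiff (y : S) : MDifferentiableAt (𝓡 2) 𝓘(ℝ, V3) ((↑) : S → V3) y :=
  (contMDiff_coe_sphere (m := ∞) y).mdifferentiableAt (by simp)

lemma comp1 (x : S × (S × S)) (w : EE) :
    (mfderiv ((𝓡 2).prod ((𝓡 2).prod (𝓡 2))) 𝓘(ℝ, V3) (fun x : S × (S × S) => (x.1 : V3)) x :
      EE →L[ℝ] V3) w = (mfderiv (𝓡 2) 𝓘(ℝ, V3) ((↑) : S → V3) x.1 : E2 →L[ℝ] V3) w.1 := by
  have h := (coe_mdiff x.1).hasMFDerivAt.comp x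
    (hasMFDerivAt_fst (I := 𝓡 2) (I' := (𝓡 2).prod (𝓡 2)) x)
  exact congrArg (fun L : EE →L[ℝ] V3 => L w) h.mfderiv

lemma comp2 (x : S × (S × S)) (w : EE) :
    (mfderiv ((𝓡 2).prod ((𝓡 2).prod (𝓡 2))) 𝓘(ℝ, V3) (fun x : S × (S × S) => (x.2.1 : V3)) x :
      EE →L[ℝ] V3) w = (mfderiv (𝓡 2) 𝓘(ℝ, V3) ((↑) : S → V3) x.2.1 : E2 →L[ℝ] V3) w.2.1 := by
  have h := ((coe_mdiff x.2.1).hasMFDerivAt.comp x.2
    (hasMFDerivAt_fst (I := 𝓡 2) (I' := 𝓡 2) x.2)).comp x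
    (hasMFDerivAt_snd (I := 𝓡 2) (I' := (𝓡 2).prod (𝓡 2)) x)
  exact congrArg (fun L : EE →L[ℝ] V3 => L w) h.mfderiv

lemma comp3 (x : S × (S × S)) (w : EE) :
    (mfderiv ((𝓡 2).prod ((𝓡 2).prod (𝓡 2))) 𝓘(ℝ, V3) (fun x : S × (S × S) => (x.2.2 : V3)) x :
      EE →L[ℝ] V3) w = (mfderiv (𝓡 2) 𝓘(ℝ, V3) ((↑) : S → V3) x.2.2 : E2 →L[ℝ] V3) w.2.2 := by
  have h := ((coe_mdiff x.2.2).hasMFDerivAt.comp x.2
    (hasMFDerivAt_snd (I := 𝓡 2) (I' := 𝓡 2) x.2)).comp x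
    (hasMFDerivAt_snd (I := 𝓡 2) (I' := (𝓡 2).prod (𝓡 2)) x)
  exact congrArg (fun L : EE →L[ℝ] V3 => L w) h.mfderiv

/-- the derivative of the inclusion -/
def D (x : MM) : EE →L[ℝ] WW := mfderiv 𝓘(ℝ, EE) 𝓘(ℝ, WW) inc x

/-- the derivative of a map to a vector space composed with a linear map -/
lemma D_lin (L : WW →L[ℝ] V3) (x : MM) (w : EE) :
    (mfderiv 𝓘(ℝ, EE) 𝓘(ℝ, V3) (fun y => L (inc y)) x : EE →L[ℝ] V3) w = L (D x w) := by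
  have d0 : MDifferentiableAt 𝓘(ℝ, EE) 𝓘(ℝ, WW) inc x := (inc_smooth x).mdifferentiableAt (by simp)
  have h := (L.hasFDerivAt (x := inc x)).hasMFDerivAt.comp x d0.hasMFDerivAt
  exact congrArg (fun L : EE →L[ℝ] V3 => L w) h.mfderiv

lemma D_inj (x : MM) : Function.Injective (D x) := by
  have i : ∀ y : S, Function.Injective (mfderiv (𝓡 2) 𝓘(ℝ, V3) ((↑) : S → V3) y : E2 →L[ℝ] V3) :=
    fun y => mfderiv_coe_sphere_injective (n := 2) y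
  have key1 : ∀ (J : ModelWithCorners ℝ EE EE), J = (𝓡 2).prod ((𝓡 2).prod (𝓡 2)) → ∀ w : EE,
    (mfderiv J 𝓘(ℝ, V3) (fun y : MM => (y.1 : V3)) x : EE →L[ℝ] V3) w =
      (mfderiv (𝓡 2) 𝓘(ℝ, V3) ((↑) : S → V3) x.1 : E2 →L[ℝ] V3) w.1 := by
    rintro J rfl w
    exact comp1 x w
  have key2 : ∀ (J : ModelWithCorners ℝ EE EE), J = (𝓡 2).prod ((𝓡 2).prod (𝓡 2)) → ∀ w : EE,
    (mfderiv J 𝓘(ℝ, V3) (fun y : MM => (y.2.1 : V3)) x : EE →L[ℝ] V3) w =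
      (mfderiv (𝓡 2) 𝓘(ℝ, V3) ((↑) : S → V3) x.2.1 : E2 →L[ℝ] V3) w.2.1 := by
    rintro J rfl w
    exact comp2 x w
  have key3 : ∀ (J : ModelWithCorners ℝ EE EE), J = (𝓡 2).prod ((𝓡 2).prod (𝓡 2)) → ∀ w : EE,
    (mfderiv J 𝓘(ℝ, V3) (fun y : MM => (y.2.2 : V3)) x : EE →L[ℝ] V3) w =
      (mfderiv (𝓡 2) 𝓘(ℝ, V3) ((↑) : S → V3) x.2.2 : E2 →L[ℝ] V3) w.2.2 := by
    rintro J rfl w
    exact comp3 x w
  have l1 : ∀ w : EE, (mfderiv 𝓘(ℝ, EE) 𝓘(ℝ, V3) (fun y : MM => (y.1 : V3)) x : EE →L[ℝ] V3) w =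
      (D x w).1 := D_lin (ContinuousLinearMap.fst ℝ V3 (V3 × V3)) x
  have l2 : ∀ w : EE, (mfderiv 𝓘(ℝ, EE) 𝓘(ℝ, V3) (fun y : MM => (y.2.1 : V3)) x : EE →L[ℝ] V3) w =
      (D x w).2.1 := D_lin ((ContinuousLinearMap.fst ℝ V3 V3).comp
        (ContinuousLinearMap.snd ℝ V3 (V3 × V3))) x
  have l3 : ∀ w : EE, (mfderiv 𝓘(ℝ, EE) 𝓘(ℝ, V3) (fun y : MM => (y.2.2 : V3)) x : EE →L[ℝ] V3) w =
      (D x w).2.2 := D_lin ((ContinuousLinearMap.snd ℝ V3 V3).comp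
        (ContinuousLinearMap.snd ℝ V3 (V3 × V3))) x
  intro u v huv
  refine Prod.ext (i x.1 ?_) (Prod.ext (i x.2.1 ?_) (i x.2.2 ?_))
  · rw [← key1 _ II_eq, ← key1 _ II_eq, l1, l1, huv]
  · rw [← key2 _ II_eq, ← key2 _ II_eq, l2, l2, huv]
  · rw [← key3 _ II_eq, ← key3 _ II_eq, l3, l3, huv]

end

end Pool.Agent.Q145.TN
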