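import Pool.Agent.Q145.TN.Act
import Pool.Agent.Q145.TN.Metrize
import Pool.Agent.Q145.TN.Fix
import Pool.Agent.Y503.HC.FinQuot

/-! The quotient of the product of three two-spheres by the even sign changes: isometries and
symmetries. -/

set_option autoImplicit false

namespace Pool.Agent.Q145.TN

open scoped Manifold ContDiff Topology ENNReal
open Bundle Manifold Set Filter Module

noncomputable section

/-- the quotient exists -/
theorem exists_N : ∃ (N : Type) (_ : TopologicalSpace N) (_ : ChartedSpace EE N)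
    (_ : IsManifold 𝓘(ℝ, EE) ∞ N) (_ : T2Space N) (g' : Y503.HC.Metric 𝓘(ℝ, EE) N) (p : MM → N),
    Y503.HC.IsQuotient Γ gM g' p := by
  apply Y503.HC.exists_quotient gM Γ
  · intro γ
    exact ⟨actD (sg γ.1) (sg γ.2) (sg (γ.1 * γ.2)), actD_iso _ _ _, fun x => rfl⟩
  · exact free

instance : ConnectedSpace S := by
  have : IsConnected (Metric.sphere (0 : V3) 1) := by
    apply isConnected_sphere _ _ zero_le_one
    rw [← finrank_eq_rank]
    have : finrank ℝ V3 = 3 := by simp
    rw [this]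
    norm_num
  exact isConnected_iff_connectedSpace.1 this

instance : ConnectedSpace MM := inferInstanceAs (ConnectedSpace (S × (S × S)))

variable {N : Type} [TopologicalSpace N] [ChartedSpace EE N] [IsManifold 𝓘(ℝ, EE) ∞ N]
  {g' : Y503.HC.Metric 𝓘(ℝ, EE) N} {p : MM → N}

lemma compat (hq : Y503.HC.IsQuotient Γ gM g' p) (a b c : LI) (x y : MM) (h : p x = p y) :
    p (act a b c x) = p (act a b c y) := by
  obtain ⟨γ, rfl⟩ := (hq.fibre x y).1 h
  rw [hq.fibre]
  refine ⟨γ, ?_⟩
  apply inc_injective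
  rw [smul_def', smul_def', inc_act, inc_act, inc_act, inc_act, amb_apply, amb_apply, amb_apply,
    amb_apply]
  simp only [sg_apply, map_smul]

/-- the descended map -/
lemma exists_desc (hq : Y503.HC.IsQuotient Γ gM g' p) (a b c : LI) :
    ∃ Φ : N → N, (∀ x, Φ (p x) = p (act a b c x)) ∧ ContMDiff 𝓘(ℝ, EE) 𝓘(ℝ, EE) ∞ Φ ∧
      ∀ m n, Y503.HC.dist g' (Φ m) (Φ n) ≤ Y503.HC.dist g' m n :=
  descend hq.localDiffeo hq.surjective hq.induced (act_smooth a b c)
    (fun x v => act_iso a b c x v v) (compat hq a b c)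

variable [ConnectedSpace N] [T3Space N]

/-- the involutive isometry of the quotient given by involutive linear isometries -/
lemma exists_inv (hq : Y503.HC.IsQuotient Γ gM g' p) (a b c : LI) (ha : ∀ v, a (a v) = v)
    (hb : ∀ v, b (b v) = v) (hc : ∀ v, c (c v) = v) :
    letI := mS g'
    ∃ Φ : N ≃ᵢ N, (∀ x, Φ (p x) = p (act a b c x)) ∧ ∀ n, Φ (Φ n) = n := by
  let _ := mS g'
  obtain ⟨Φ, h1, -, h2⟩ := exists_desc hq a b c
  have h3 : ∀ n, Φ (Φ n) = n := by
    intro n
    obtain ⟨x, rfl⟩ := hq.surjective n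
    rw [h1, h1]
    congr 1
    apply inc_injective
    rw [inc_act, inc_act, amb_apply, amb_apply]
    simp only [ha, hb, hc]
  have h4 : Isometry Φ := by
    intro m n
    apply le_antisymm
    · exact h2 m n
    · have := h2 (Φ m) (Φ n)
      rw [h3, h3] at this
      exact this
  exact ⟨⟨⟨Φ, Φ, h3, h3⟩, h4⟩, h1, h3⟩

/-- the choice of the involutive isometry -/
def inv (hq : Y503.HC.IsQuotient Γ gM g' p) (a b c : LI) (ha : ∀ v, a (a v) = v)
    (hb : ∀ v, b (b v) = v) (hc : ∀ v, c (c v) = v) :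
    letI := mS g'
    N ≃ᵢ N :=
  (exists_inv hq a b c ha hb hc).choose

lemma inv_apply (hq : Y503.HC.IsQuotient Γ gM g' p) (a b c : LI) (ha : ∀ v, a (a v) = v)
    (hb : ∀ v, b (b v) = v) (hc : ∀ v, c (c v) = v) (x : MM) :
    letI := mS g'
    inv hq a b c ha hb hc (p x) = p (act a b c x) :=
  (exists_inv hq a b c ha hb hc).choose_spec.1 x

lemma inv_inv (hq : Y503.HC.IsQuotient Γ gM g' p) (a b c : LI) (ha : ∀ v, a (a v) = v)
    (hb : ∀ v, b (b v) = v) (hc : ∀ v, c (c v) = v) (n : N) :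
    letI := mS g'
    inv hq a b c ha hb hc (inv hq a b c ha hb hc n) = n :=
  (exists_inv hq a b c ha hb hc).choose_spec.2 n

/-- the half turn about the line of `x` -/
def rf (x : S) : LI := (ℝ ∙ (x : V3)).reflection

lemma rf_rf (x : S) (v : V3) : rf x (rf x v) = v := Submodule.reflection_reflection _ v

lemma nrmS (x : S) : ‖(x : V3)‖ = 1 := mem_sphere_zero_iff_norm.1 x.2

lemma rf_apply (x : S) (v : V3) : rf x v = (2 * inner ℝ (x : V3) v) • (x : V3) - v := by
  unfold rf
  rw [Submodule.reflection_singleton_apply, nrmS]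
  simp only [RCLike.ofReal_real_eq_id, id_eq, one_pow, div_one]
  module

lemma inner_self' (x : S) : inner ℝ (x : V3) (x : V3) = 1 := by
  rw [real_inner_self_eq_norm_sq, nrmS]; norm_num

lemma rf_self (x : S) : rf x x = (x : V3) := by
  rw [rf_apply, inner_self']; module

/-- if the half turn about `x` maps `y` to `s y` -/
lemma rf_eq {x y : S} {s : ℤˣ} (h : rf x y = sg s y) :
    (s = 1 ∧ ((y : V3) = x ∨ (y : V3) = -x)) ∨ (s = -1 ∧ inner ℝ (x : V3) (y : V3) = 0) := by
  rw [rf_apply, sg_apply] at h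
  rcases Int.units_eq_one_or s with rfl | rfl
  · left
    refine ⟨rfl, ?_⟩
    have h1 : (inner ℝ (x : V3) (y : V3)) • (x : V3) = y := by
      have h2 : (2 * inner ℝ (x : V3) (y : V3)) • (x : V3) - y = y := by simpa using h
      have h3 : (2 : ℝ) • ((inner ℝ (x : V3) (y : V3)) • (x : V3)) = (2 : ℝ) • (y : V3) := by
        rw [smul_smul, two_smul]
        exact sub_eq_iff_eq_add.1 h2
      exact smul_right_injective V3 (two_ne_zero (α := ℝ)) h3
    have h4 : |inner ℝ (x : V3) (y : V3)| = 1 := by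
      have := congrArg norm h1
      rwa [norm_smul, nrmS, nrmS, mul_one, Real.norm_eq_abs] at this
    rcases eq_or_eq_neg_of_abs_eq h4 with h5 | h5
    · left; rw [← h1, h5, one_smul]
    · right; rw [← h1, h5, neg_smul, one_smul]
  · right
    refine ⟨rfl, ?_⟩
    have h2 : (2 * inner ℝ (x : V3) (y : V3)) • (x : V3) = 0 := by
      have h3 : (2 * inner ℝ (x : V3) (y : V3)) • (x : V3) - y = -y := by simpa using h
      have := sub_eq_iff_eq_add.1 h3
      rw [this]; abel
    rcases smul_eq_zero.1 h2 with h3 | h3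
    · linarith
    · exfalso
      have := nrmS x
      rw [h3, norm_zero] at this
      norm_num at this

/-- the symmetry of the quotient at `p x` -/
def sym (hq : Y503.HC.IsQuotient Γ gM g' p) (x : MM) :
    letI := mS g'
    N ≃ᵢ N :=
  inv hq (rf x.1) (rf x.2.1) (rf x.2.2) (rf_rf _) (rf_rf _) (rf_rf _)

/-- fixed points of the symmetry -/
lemma sym_fix (hq : Y503.HC.IsQuotient Γ gM g' p) (x y : MM)
    (h : letI := mS g'; sym hq x (p y) = p y) : ∃ γ : Γ, rf x.1 y.1 = sg γ.1 y.1 ∧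
      rf x.2.1 y.2.1 = sg γ.2 y.2.1 ∧ rf x.2.2 y.2.2 = sg (γ.1 * γ.2) y.2.2 := by
  letI := mS g'
  have h1 : p y = p (act (rf x.1) (rf x.2.1) (rf x.2.2) y) := by
    rw [← inv_apply hq _ _ _ (rf_rf _) (rf_rf _) (rf_rf _) y]
    exact h.symm
  obtain ⟨γ, hγ⟩ := (hq.fibre _ _).1 h1
  have h2 : inc (γ • y) = inc (act (rf x.1) (rf x.2.1) (rf x.2.2) y) := by rw [hγ]
  rw [smul_def', inc_act, inc_act, amb_apply, amb_apply] at h2
  refine ⟨γ, ?_, ?_, ?_⟩
  · exact (congrArg Prod.fst h2).symm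
  · exact (congrArg (fun w : WW => w.2.1) h2).symm
  · exact (congrArg (fun w : WW => w.2.2) h2).symm

lemma pos_case {x y : S} {s : ℤˣ} (h : rf x y = sg s y) (hp : 0 < inner ℝ (x : V3) (y : V3)) :
    y = x := by
  rcases rf_eq h with ⟨-, h1 | h1⟩ | ⟨-, h1⟩
  · exact Subtype.ext h1
  · exfalso
    rw [h1, inner_neg_right, inner_self'] at hp
    norm_num at hp
  · exfalso
    rw [h1] at hp
    exact lt_irrefl _ hp

omit [ConnectedSpace N] [T3Space N] in
lemma openMap (hq : Y503.HC.IsQuotient Γ gM g' p) : IsOpenMap p :=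
  hq.covering.isLocalHomeomorph.isOpenMap

/-- the symmetry is a symmetry -/
theorem sym_isSymm (hq : Y503.HC.IsQuotient Γ gM g' p) (x : MM) :
    letI := mS g'
    Pool.Agent.Helper381.IsSymmetryAt (p x) (sym hq x) := by
  letI := mS g'
  refine ⟨inv_inv hq _ _ _ _ _ _, ?_, ?_⟩
  · refine (inv_apply hq _ _ _ _ _ _ x).trans ?_
    congr 1
    apply inc_injective
    rw [inc_act, amb_apply]
    exact Prod.ext (rf_self _) (Prod.ext (rf_self _) (rf_self _))
  · set U : Set MM := {y | 0 < inner ℝ (x.1 : V3) (y.1 : V3) ∧ 0 < inner ℝ (x.2.1 : V3) (y.2.1 : V3) ∧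
      0 < inner ℝ (x.2.2 : V3) (y.2.2 : V3)} with hU
    have hUo : IsOpen U := by
      have c1 : Continuous (fun y : MM => (y.1 : V3)) :=
        continuous_fst.comp inc_smooth.continuous
      have c2 : Continuous (fun y : MM => (y.2.1 : V3)) :=
        (continuous_fst.comp continuous_snd).comp inc_smooth.continuous
      have c3 : Continuous (fun y : MM => (y.2.2 : V3)) :=
        (continuous_snd.comp continuous_snd).comp inc_smooth.continuous
      have e1 : IsOpen {y : MM | 0 < inner ℝ (x.1 : V3) (y.1 : V3)} :=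
        isOpen_lt continuous_const (continuous_const.inner c1)
      have e2 : IsOpen {y : MM | 0 < inner ℝ (x.2.1 : V3) (y.2.1 : V3)} :=
        isOpen_lt continuous_const (continuous_const.inner c2)
      have e3 : IsOpen {y : MM | 0 < inner ℝ (x.2.2 : V3) (y.2.2 : V3)} :=
        isOpen_lt continuous_const (continuous_const.inner c3)
      exact e1.inter (e2.inter e3)
    have hpU : IsOpen (p '' U) := openMap hq U hUo
    have hxU : x ∈ U := by
      refine ⟨?_, ?_, ?_⟩ <;> rw [inner_self'] <;> norm_num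
    have hmem : p '' U ∈ 𝓝 (p x) := hpU.mem_nhds ⟨x, hxU, rfl⟩
    obtain ⟨ε, hε, hb⟩ := Metric.mem_nhds_iff.1 hmem
    refine ⟨ε, hε, fun n hn hfix => ?_⟩
    obtain ⟨y, hyU, rfl⟩ := hb hn
    obtain ⟨γ, h1, h2, h3⟩ := sym_fix hq x y hfix
    congr 1
    exact Prod.ext (pos_case h1 hyU.1) (Prod.ext (pos_case h2 hyU.2.1) (pos_case h3 hyU.2.2))

theorem isSymmetric (hq : Y503.HC.IsQuotient Γ gM g' p) :
    letI := mS g'
    Pool.Agent.Helper381.IsSymmetric N := by
  letI := mS g'
  intro n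
  obtain ⟨x, rfl⟩ := hq.surjective n
  exact ⟨sym hq x, sym_isSymm hq x⟩

end

end Pool.Agent.Q145.TN
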