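import Pool.Agent.Q145.TN.Quo

/-! Upper bound for the two-number of the quotient. -/

set_option autoImplicit false

namespace Pool.Agent.Q145.TN

open scoped Manifold ContDiff Topology ENNReal
open Bundle Manifold Set Filter Module

noncomputable section

/-! ### Labels of lines -/

/-- pairwise parallel or perpendicular unit vectors of three-space lie on at most three lines -/
lemma labels (U : Set S) (hU : ∀ x ∈ U, ∀ y ∈ U, (y : V3) = x ∨ (y : V3) = -x ∨
    inner ℝ (x : V3) (y : V3) = 0) :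
    ∃ ℓ : S → Fin 3, ∀ x ∈ U, ∀ y ∈ U, (ℓ x = ℓ y ↔ inner ℝ (x : V3) (y : V3) ≠ 0) := by
  classical
  let st : Setoid U :=
    { r := fun x y => inner ℝ ((x : S) : V3) ((y : S) : V3) ≠ 0
      iseqv :=
        { refl := fun x => by rw [inner_self']; norm_num
          symm := fun {x y} h => by rw [real_inner_comm]; exact h
          trans := fun {x y z} h1 h2 => by
            have e1 : ((y : S) : V3) = x ∨ ((y : S) : V3) = -((x : S) : V3) := by
              rcases hU x x.2 y y.2 with h | h | h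
              · exact Or.inl h
              · exact Or.inr h
              · exact absurd h h1
            rcases e1 with h | h
            · rw [h] at h2; exact h2
            · rw [h, inner_neg_left] at h2
              intro h3
              exact h2 (by rw [h3, neg_zero]) } }
  let f : Quotient st → V3 := fun q => ((q.out : S) : V3)
  have horth : Orthonormal ℝ f := by
    refine ⟨fun q => nrmS _, fun q r hqr => ?_⟩
    by_contra hne
    apply hqr
    rw [← Quotient.out_eq q, ← Quotient.out_eq r]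
    exact Quotient.sound hne
  have hli := horth.linearIndependent
  have hfin : Finite (Quotient st) := hli.finite_of_isNoetherian
  let _ := Fintype.ofFinite (Quotient st)
  have hcard : Fintype.card (Quotient st) ≤ Fintype.card (Fin 3) := by
    have := hli.fintype_card_le_finrank
    simpa using this
  obtain ⟨e⟩ := Function.Embedding.nonempty_of_card_le hcard
  refine ⟨fun x => if h : x ∈ U then e (Quotient.mk st ⟨x, h⟩) else 0, fun x hx y hy => ?_⟩
  simp only [dif_pos hx, dif_pos hy]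
  rw [e.injective.eq_iff, Quotient.eq]
  exact Iff.rfl

/-! ### The code -/

lemma fin3_cases : ∀ x2 y2 z2 d2 x3 y3 z3 d3 : Fin 3, x2 ≠ y2 → y2 ≠ z2 → x2 ≠ z2 →
    x3 ≠ y3 → y3 ≠ z3 → x3 ≠ z3 → (d2 = x2 ∨ d3 = x3) → (d2 = y2 ∨ d3 = y3) →
    (d2 = z2 ∨ d3 = z3) → False := by
  intro x2 y2 z2 d2 x3 y3 z3 d3 h1 h2 h3 h4 h5 h6 h7 h8 h9
  omega

/-- triples which pairwise agree in exactly one place: there are at most six -/
lemma code_card (C : Finset (Fin 3 × Fin 3 × Fin 3))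
    (h : ∀ c ∈ C, ∀ d ∈ C, c ≠ d →
      (c.1 = d.1 ∧ c.2.1 ≠ d.2.1 ∧ c.2.2 ≠ d.2.2) ∨ (c.1 ≠ d.1 ∧ c.2.1 = d.2.1 ∧ c.2.2 ≠ d.2.2) ∨
      (c.1 ≠ d.1 ∧ c.2.1 ≠ d.2.1 ∧ c.2.2 = d.2.2)) : C.card ≤ 6 := by
  classical
  by_cases hbig : ∃ k : Fin 3, 2 < (C.filter (fun c => c.1 = k)).card
  · obtain ⟨k, hk⟩ := hbig
    have hall : ∀ d ∈ C, d.1 = k := by
      intro d hd
      by_contra hdk
      obtain ⟨x, hx, y, hy, z, hz, hxy, hxz, hyz⟩ := Finset.two_lt_card.1 hk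
      rw [Finset.mem_filter] at hx hy hz
      have a1 := h x hx.1 y hy.1 hxy
      have a2 := h x hx.1 z hz.1 hxz
      have a3 := h y hy.1 z hz.1 hyz
      have n1 : d ≠ x := fun e => hdk (by rw [e]; exact hx.2)
      have n2 : d ≠ y := fun e => hdk (by rw [e]; exact hy.2)
      have n3 : d ≠ z := fun e => hdk (by rw [e]; exact hz.2)
      have b1 := h d hd x hx.1 n1
      have b2 := h d hd y hy.1 n2
      have b3 := h d hd z hz.1 n3
      have e1 := hx.2
      have e2 := hy.2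
      have e3 := hz.2
      omega
    have hinj : Set.InjOn (fun c : Fin 3 × Fin 3 × Fin 3 => c.2.1) (C : Set _) := by
      intro c hc d hd hcd
      by_contra hne
      have := h c hc d hd hne
      have e1 := hall c hc
      have e2 := hall d hd
      simp only at hcd
      omega
    have h1 := Finset.card_image_of_injOn hinj
    have h2 : (C.image (fun c : Fin 3 × Fin 3 × Fin 3 => c.2.1)).card ≤ 3 := by
      have := Finset.card_le_univ (C.image (fun c : Fin 3 × Fin 3 × Fin 3 => c.2.1))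
      simpa using this
    omega
  · push Not at hbig
    have h1 : C.card = ∑ k : Fin 3, (C.filter (fun c => c.1 = k)).card :=
      Finset.card_eq_sum_card_fiberwise (fun c _ => Finset.mem_univ _)
    rw [h1, Fin.sum_univ_three]
    have a0 := hbig 0
    have a1 := hbig 1
    have a2 := hbig 2
    omega

/-! ### Antipodal sets -/

variable {N : Type} [TopologicalSpace N] [ChartedSpace EE N] [IsManifold 𝓘(ℝ, EE) ∞ N]
  {g' : Y503.HC.Metric 𝓘(ℝ, EE) N} {p : MM → N}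

lemma sign_of {x y : S} (h : (y : V3) = x ∨ (y : V3) = -x) : ∃ s : ℤˣ, (y : V3) = sg s x := by
  rcases h with h | h
  · exact ⟨1, by rw [h, sg_apply]; simp⟩
  · exact ⟨-1, by rw [h, sg_apply]; simp⟩

lemma sg_sg (s t : ℤˣ) (v : V3) : sg s (sg t v) = sg (s * t) v := by
  rw [sg_apply, sg_apply, sg_apply, smul_smul]
  push_cast
  rfl

lemma eq_of_signs (hq : Y503.HC.IsQuotient Γ gM g' p) {x y : MM} {a b c : ℤˣ}
    (h1 : (y.1 : V3) = sg a x.1) (h2 : (y.2.1 : V3) = sg b x.2.1) (h3 : (y.2.2 : V3) = sg c x.2.2)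
    (habc : a * b * c = 1) : p x = p y := by
  rw [hq.fibre]
  refine ⟨(a, b), ?_⟩
  apply inc_injective
  rw [smul_def', inc_act, amb_apply]
  have hc : a * b = c := by
    rcases Int.units_eq_one_or a with rfl | rfl <;> rcases Int.units_eq_one_or b with rfl | rfl <;>
      rcases Int.units_eq_one_or c with rfl | rfl <;> first | rfl | (exfalso; revert habc; decide)
  refine Prod.ext h1.symm (Prod.ext h2.symm ?_)
  show sg (a * b) (x.2.2 : V3) = _
  rw [hc]
  exact h3.symm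

variable [ConnectedSpace N] [T3Space N]

/-- the relation of two points of an antipodal set -/
lemma antipodal_rel (hq : Y503.HC.IsQuotient Γ gM g' p) [CompactSpace N] {A : Set N}
    (hA : letI := mS g'; Pool.Agent.Helper381.IsAntipodal A) {x y : MM} (hx : p x ∈ A)
    (hy : p y ∈ A) : ∃ γ : Γ, rf x.1 y.1 = sg γ.1 y.1 ∧
      rf x.2.1 y.2.1 = sg γ.2 y.2.1 ∧ rf x.2.2 y.2.2 = sg (γ.1 * γ.2) y.2.2 := by
  let _ := mS g'
  obtain ⟨R, G⟩ := exists_geo g'
  obtain ⟨s, hs, hsy⟩ := hA (p x) hx (p y) hy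
  have e := G.symm_unique (sym_isSymm hq x) hs (p y)
  exact sym_fix hq x y (e.trans hsy)

theorem card_le_twelve (hq : Y503.HC.IsQuotient Γ gM g' p) [CompactSpace N] (A : Finset N)
    (hA : letI := mS g'; Pool.Agent.Helper381.IsAntipodal (A : Set N)) : A.card ≤ 12 := by
  classical
  have hrel : ∀ x y : MM, p x ∈ A → p y ∈ A → ∃ γ : Γ, rf x.1 y.1 = sg γ.1 y.1 ∧
      rf x.2.1 y.2.1 = sg γ.2 y.2.1 ∧ rf x.2.2 y.2.2 = sg (γ.1 * γ.2) y.2.2 :=
    fun x y hx hy => antipodal_rel hq hA hx hy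
  set r : N → MM := Function.surjInv hq.surjective with hr
  have hpr : ∀ n, p (r n) = n := Function.surjInv_eq hq.surjective
  have hrel' : ∀ m ∈ A, ∀ n ∈ A, ∃ γ : Γ, rf (r m).1 (r n).1 = sg γ.1 (r n).1 ∧
      rf (r m).2.1 (r n).2.1 = sg γ.2 (r n).2.1 ∧
      rf (r m).2.2 (r n).2.2 = sg (γ.1 * γ.2) (r n).2.2 :=
    fun m hm n hn => hrel _ _ (by rw [hpr]; exact hm) (by rw [hpr]; exact hn)
  -- labels
  have hpar : ∀ {x y : S} {s : ℤˣ}, rf x y = sg s y →
      (y : V3) = x ∨ (y : V3) = -x ∨ inner ℝ (x : V3) (y : V3) = 0 := by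
    intro x y s h
    rcases rf_eq h with ⟨-, h1 | h1⟩ | ⟨-, h1⟩
    · exact Or.inl h1
    · exact Or.inr (Or.inl h1)
    · exact Or.inr (Or.inr h1)
  obtain ⟨l1, hl1⟩ := labels {x | ∃ n ∈ A, x = (r n).1} (by
    rintro _ ⟨m, hm, rfl⟩ _ ⟨n, hn, rfl⟩
    obtain ⟨γ, h1, h2, h3⟩ := hrel' m hm n hn
    exact hpar h1)
  obtain ⟨l2, hl2⟩ := labels {x | ∃ n ∈ A, x = (r n).2.1} (by
    rintro _ ⟨m, hm, rfl⟩ _ ⟨n, hn, rfl⟩
    obtain ⟨γ, h1, h2, h3⟩ := hrel' m hm n hn
    exact hpar h2)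
  obtain ⟨l3, hl3⟩ := labels {x | ∃ n ∈ A, x = (r n).2.2} (by
    rintro _ ⟨m, hm, rfl⟩ _ ⟨n, hn, rfl⟩
    obtain ⟨γ, h1, h2, h3⟩ := hrel' m hm n hn
    exact hpar h3)
  -- signs and labels
  have hsl : ∀ {x y : S} {s : ℤˣ} {l : S → Fin 3}, rf x y = sg s y →
      (l x = l y ↔ inner ℝ (x : V3) (y : V3) ≠ 0) →
      (s = 1 ∧ l x = l y ∧ ((y : V3) = x ∨ (y : V3) = -x)) ∨ (s = -1 ∧ l x ≠ l y) := by
    intro x y s l h hl
    rcases rf_eq h with ⟨h0, h1⟩ | ⟨h0, h1⟩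
    · left
      refine ⟨h0, hl.2 ?_, h1⟩
      rcases h1 with h1 | h1
      · rw [h1, inner_self']; norm_num
      · rw [h1, inner_neg_right, inner_self']; norm_num
    · right
      exact ⟨h0, fun h2 => hl.1 h2 h1⟩
  set L : N → Fin 3 × Fin 3 × Fin 3 := fun n => (l1 (r n).1, l2 (r n).2.1, l3 (r n).2.2) with hL
  have hpair : ∀ m ∈ A, ∀ n ∈ A, ∃ γ : Γ,
      ((γ.1 = 1 ∧ (L m).1 = (L n).1 ∧ (((r n).1 : V3) = (r m).1 ∨ ((r n).1 : V3) = -(r m).1)) ∨
        (γ.1 = -1 ∧ (L m).1 ≠ (L n).1)) ∧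
      ((γ.2 = 1 ∧ (L m).2.1 = (L n).2.1 ∧
        (((r n).2.1 : V3) = (r m).2.1 ∨ ((r n).2.1 : V3) = -(r m).2.1)) ∨
        (γ.2 = -1 ∧ (L m).2.1 ≠ (L n).2.1)) ∧
      ((γ.1 * γ.2 = 1 ∧ (L m).2.2 = (L n).2.2 ∧
        (((r n).2.2 : V3) = (r m).2.2 ∨ ((r n).2.2 : V3) = -(r m).2.2)) ∨
        (γ.1 * γ.2 = -1 ∧ (L m).2.2 ≠ (L n).2.2)) := by
    intro m hm n hn
    obtain ⟨γ, h1, h2, h3⟩ := hrel' m hm n hn
    exact ⟨γ, hsl h1 (hl1 _ ⟨m, hm, rfl⟩ _ ⟨n, hn, rfl⟩), hsl h2 (hl2 _ ⟨m, hm, rfl⟩ _ ⟨n, hn, rfl⟩),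
      hsl h3 (hl3 _ ⟨m, hm, rfl⟩ _ ⟨n, hn, rfl⟩)⟩
  have hneg : ¬ ((1 : ℤˣ) = -1) := by decide
  have hneg' : ¬ ((-1 : ℤˣ) = 1) := by decide
  -- the code
  have hcode : (A.image L).card ≤ 6 := by
    apply code_card
    intro c hc d hd hcd
    obtain ⟨m, hm, rfl⟩ := Finset.mem_image.1 hc
    obtain ⟨n, hn, rfl⟩ := Finset.mem_image.1 hd
    obtain ⟨γ, h1, h2, h3⟩ := hpair m hm n hn
    rcases h1 with ⟨g1, e1, -⟩ | ⟨g1, e1⟩ <;> rcases h2 with ⟨g2, e2, -⟩ | ⟨g2, e2⟩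
    · rcases h3 with ⟨g3, e3, -⟩ | ⟨g3, e3⟩
      · exact absurd (Prod.ext e1 (Prod.ext e2 e3)) hcd
      · rw [g1, g2] at g3; exact absurd g3 (by decide)
    · rcases h3 with ⟨g3, e3, -⟩ | ⟨g3, e3⟩
      · rw [g1, g2] at g3; exact absurd g3 (by decide)
      · exact Or.inl ⟨e1, e2, e3⟩
    · rcases h3 with ⟨g3, e3, -⟩ | ⟨g3, e3⟩
      · rw [g1, g2] at g3; exact absurd g3 (by decide)
      · exact Or.inr (Or.inl ⟨e1, e2, e3⟩)
    · rcases h3 with ⟨g3, e3, -⟩ | ⟨g3, e3⟩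
      · exact Or.inr (Or.inr ⟨e1, e2, e3⟩)
      · rw [g1, g2] at g3; exact absurd g3 (by decide)
  -- the fibres
  have hsame : ∀ m ∈ A, ∀ n ∈ A, L m = L n → ∃ a b c : ℤˣ, ((r n).1 : V3) = sg a (r m).1 ∧
      ((r n).2.1 : V3) = sg b (r m).2.1 ∧ ((r n).2.2 : V3) = sg c (r m).2.2 := by
    intro m hm n hn hmn
    obtain ⟨γ, h1, h2, h3⟩ := hpair m hm n hn
    rcases h1 with ⟨-, -, e1⟩ | ⟨-, e1⟩
    · rcases h2 with ⟨-, -, e2⟩ | ⟨-, e2⟩
      · rcases h3 with ⟨-, -, e3⟩ | ⟨-, e3⟩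
        · obtain ⟨a, ha⟩ := sign_of e1
          obtain ⟨b, hb⟩ := sign_of e2
          obtain ⟨c, hc⟩ := sign_of e3
          exact ⟨a, b, c, ha, hb, hc⟩
        · exact absurd (by rw [hmn]) e3
      · exact absurd (by rw [hmn]) e2
    · exact absurd (by rw [hmn]) e1
  have hprod : ∀ {m n : N} {a b c : ℤˣ}, m ≠ n → ((r n).1 : V3) = sg a (r m).1 →
      ((r n).2.1 : V3) = sg b (r m).2.1 → ((r n).2.2 : V3) = sg c (r m).2.2 → a * b * c = -1 := by
    intro m n a b c hmn h1 h2 h3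
    rcases Int.units_eq_one_or (a * b * c) with h | h
    · exfalso
      apply hmn
      have := eq_of_signs hq h1 h2 h3 h
      rwa [hpr, hpr] at this
    · exact h
  have hfib : ∀ c ∈ A.image L, (A.filter (fun n => L n = c)).card ≤ 2 := by
    intro c _
    by_contra hcon
    push Not at hcon
    obtain ⟨x, hx, y, hy, z, hz, hxy, hxz, hyz⟩ := Finset.two_lt_card.1 hcon
    rw [Finset.mem_filter] at hx hy hz
    obtain ⟨a, b, c', h1, h2, h3⟩ := hsame x hx.1 y hy.1 (by rw [hx.2, hy.2])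
    obtain ⟨a', b', c'', h1', h2', h3'⟩ := hsame y hy.1 z hz.1 (by rw [hy.2, hz.2])
    have k1 := hprod hxy h1 h2 h3
    have k2 := hprod hyz h1' h2' h3'
    have k3 := hprod hxz (a := a' * a) (b := b' * b) (c := c'' * c')
      (by rw [h1', h1, sg_sg]) (by rw [h2', h2, sg_sg]) (by rw [h3', h3, sg_sg])
    have k4 : a' * a * (b' * b) * (c'' * c') = (a' * b' * c'') * (a * b * c') := by
      simp only [mul_comm, mul_left_comm]
    rw [k4, k1, k2] at k3
    exact absurd k3 (by decide)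
  have := Finset.card_le_mul_card_image A 2 hfib
  omega

theorem twoNumber_le (hq : Y503.HC.IsQuotient Γ gM g' p) [CompactSpace N] :
    letI := mS g'
    Pool.Agent.Helper381.twoNumber N ≤ 12 := by
  classical
  let _ := mS g'
  apply iSup_le
  rintro ⟨A, hA⟩
  by_contra hcon
  push Not at hcon
  have h13 : (13 : ℕ∞) ≤ A.encard := by
    have : (12 : ℕ∞) + 1 ≤ A.encard := Order.add_one_le_of_lt hcon
    exact this
  obtain ⟨B, hBA, hBc⟩ := Set.exists_subset_encard_eq h13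
  have hBf : B.Finite := Set.finite_of_encard_eq_coe (k := 13) hBc
  have h1 := card_le_twelve hq hBf.toFinset (by
    intro x hx y hy
    exact hA x (hBA (by simpa using hx)) y (hBA (by simpa using hy)))
  have h2 : B.encard = hBf.toFinset.card := hBf.encard_eq_coe_toFinset_card
  rw [hBc] at h2
  have h3 : (13 : ℕ) = hBf.toFinset.card := by exact_mod_cast h2
  omega

end

end Pool.Agent.Q145.TN
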